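import Mathlib

set_option autoImplicit false

open Polynomial

namespace Pool.Agent.Results.MP_1c7d4c_an.ConditionAFails

/-- The monic polynomial with the zeros `x j`. -/
noncomputable def zeroPoly {n : ℕ} (x : Fin n → ℝ) : ℝ[X] := ∏ j, (X - C (x j))

/-- The zeros are simple, lie in `[-1,1]` and are symmetric about the origin. -/
def SymmetricZeros {n : ℕ} (x : Fin n → ℝ) : Prop :=
  StrictMono x ∧ (∀ j, x j ∈ Set.Icc (-1 : ℝ) 1) ∧ ∀ j, x j = -x (Fin.rev j)

/-- Condition (a). -/
def ConditionA (n : ℕ) (Q : ℝ[X]) : Prop :=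
  ∀ k ≤ n, ∀ x ∈ Set.Ioo (-1 : ℝ) 1, |(derivative^[k] Q).eval x| ≤ (derivative^[k] Q).eval 1

/-- Property (D). -/
def PropertyD (Q : ℝ[X]) : Prop :=
  ∀ x ∈ Set.Icc (-1 : ℝ) 1, ∀ y : ℝ,
    ‖aeval ((x : ℂ) + y * Complex.I) Q‖ ≤ ‖aeval (1 + y * Complex.I) Q‖

/-- positive zeros times `10^4` -/
def hl : List ℤ := [557, 1710, 2442, 5355, 8002, 8003, 8004, 8005, 8006, 8007, 8008, 8009, 8010,
  8011, 8012, 8013, 8014, 8015, 8016, 8017, 8018, 8019, 8020, 8021, 8022, 8023]

/-- zeros times `10^4`, in increasing order -/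
def zl : List ℤ := (hl.reverse.map fun z => -z) ++ hl

/-- break points times `10^4` of `[0,1]` -/
def hb : List ℤ := [15, 30, 45, 60, 80, 100, 125, 155, 190, 235, 300, 405, 590, 750, 845, 915,
  970, 1015, 1060, 1100, 1145, 1190, 1245, 1315, 1410, 1565, 1860, 2065, 2275, 2590, 2765, 2880,
  2970, 3045, 3110, 3170, 3230, 3290, 3355, 3425, 3505, 3605, 3735, 3920, 4205, 4725, 5990, 9820,
  10000]

/-- break points times `10^4` of `[-1,1]` -/
def br : List ℤ := (hb.reverse.map fun z => -z) ++ 0 :: hb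

/-- bound for `|t - z|` on `lo ≤ t ≤ hi` -/
def M (lo hi z : ℤ) : ℕ := max (lo - z).natAbs (hi - z).natAbs

/-- one multiplication by `X + a`, with carry `c` -/
def step (a : ℕ) : ℕ → List ℕ → List ℕ
  | c, [] => [c]
  | c, p :: ps => (c + a * p) :: step a p ps

/-- the coefficients of `∏ (X + a)` -/
def coefs : List ℕ → List ℕ
  | [] => [1]
  | a :: l => step a 0 (coefs l)

/-- coefficientwise comparison -/
def leq : List ℕ → List ℕ → Bool
  | [], _ => true
  | _ :: _, [] => false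
  | a :: as, b :: bs => decide (a ≤ b) && leq as bs

/-- the bounds on a cell -/
def Ml (p : ℤ × ℤ) : List ℕ := zl.map (M p.1 p.2)

/-- the distances from `1` -/
def Wl : List ℕ := zl.map fun z => (10000 - z).natAbs

theorem chk : ((br.zip br.tail).all fun p => leq (coefs (Ml p)) (coefs Wl)) = true := by
  decide +kernel

theorem leq_spec : ∀ (p q : List ℕ), leq p q = true → ∀ k, p.getD k 0 ≤ q.getD k 0
  | [], q, _, k => by simp
  | a :: as, [], h, k => by simp [leq] at h
  | a :: as, b :: bs, h, 0 => by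
    simp only [leq, Bool.and_eq_true, decide_eq_true_eq] at h
    simpa using h.1
  | a :: as, b :: bs, h, k + 1 => by
    simp only [leq, Bool.and_eq_true, decide_eq_true_eq] at h
    simpa using leq_spec as bs h.2 k

theorem step_zero (a c : ℕ) (p : List ℕ) : (step a c p).getD 0 0 = c + a * p.getD 0 0 := by
  cases p <;> simp [step]

theorem step_succ (a : ℕ) : ∀ (p : List ℕ) (c k : ℕ),
    (step a c p).getD (k + 1) 0 = p.getD k 0 + a * p.getD (k + 1) 0
  | [], c, k => by simp [step]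
  | q :: qs, c, 0 => by
    have := step_zero a q qs
    simpa [step] using this
  | q :: qs, c, k + 1 => by
    have := step_succ a qs q k
    simpa [step] using this

/-- `∏ (X + a)` -/
noncomputable def pp (l : List ℝ) : ℝ[X] := (l.map fun a => X + C a).prod

theorem pp_nil_coeff (k : ℕ) : (pp []).coeff k = if k = 0 then 1 else 0 := by
  simp [pp, coeff_one]

theorem pp_cons_zero (a : ℝ) (l : List ℝ) : (pp (a :: l)).coeff 0 = a * (pp l).coeff 0 := by
  simp [pp, mul_coeff_zero]

theorem pp_cons_succ (a : ℝ) (l : List ℝ) (k : ℕ) :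
    (pp (a :: l)).coeff (k + 1) = (pp l).coeff k + a * (pp l).coeff (k + 1) := by
  simp [pp, add_mul, coeff_X_mul]

theorem pp_bound {l : List ℝ} {m : List ℕ} (h : List.Forall₂ (fun a b => |a| ≤ ((b : ℕ) : ℝ)) l m) :
    ∀ k, |(pp l).coeff k| ≤ (((coefs m).getD k 0 : ℕ) : ℝ) := by
  induction h with
  | nil =>
    intro k
    rw [pp_nil_coeff]
    rcases k with _ | k <;> simp [coefs]
  | @cons a b l m hab _ ih =>
    intro k
    rcases k with _ | k
    · rw [pp_cons_zero, abs_mul]
      have h0 := ih 0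
      simp only [coefs, step_zero, zero_add, Nat.cast_mul]
      exact mul_le_mul hab h0 (abs_nonneg _) (Nat.cast_nonneg _)
    · rw [pp_cons_succ]
      have h0 := ih k
      have h1 := ih (k + 1)
      simp only [coefs, step_succ, Nat.cast_add, Nat.cast_mul]
      refine (abs_add_le _ _).trans (add_le_add h0 ?_)
      rw [abs_mul]
      exact mul_le_mul hab h1 (abs_nonneg _) (Nat.cast_nonneg _)

theorem pp_exact {l : List ℝ} {m : List ℕ} (h : List.Forall₂ (fun a b => a = ((b : ℕ) : ℝ)) l m) :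
    ∀ k, (pp l).coeff k = (((coefs m).getD k 0 : ℕ) : ℝ) := by
  induction h with
  | nil =>
    intro k
    rw [pp_nil_coeff]
    rcases k with _ | k <;> simp [coefs]
  | @cons a b l m hab _ ih =>
    intro k
    rcases k with _ | k
    · rw [pp_cons_zero, ih 0, hab]
      simp only [coefs, step_zero, zero_add, Nat.cast_mul]
    · rw [pp_cons_succ, ih k, ih (k + 1), hab]
      simp only [coefs, step_succ, Nat.cast_add, Nat.cast_mul]

theorem pp_scale (c : ℝ) : ∀ (l : List ℝ) (k : ℕ),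
    c ^ k * (pp (l.map fun a => c * a)).coeff k = c ^ l.length * (pp l).coeff k
  | [], k => by
    simp only [List.map_nil, pp_nil_coeff, List.length_nil, pow_zero, one_mul]
    rcases k with _ | k <;> simp
  | a :: l, 0 => by
    have h := pp_scale c l 0
    simp only [List.map_cons, List.length_cons, pp_cons_zero, pow_zero, one_mul] at h ⊢
    rw [h, pow_succ]; ring
  | a :: l, k + 1 => by
    have h := pp_scale c l k
    have h' := pp_scale c l (k + 1)
    simp only [List.map_cons, List.length_cons, pp_cons_succ] at h h' ⊢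
    have e : c ^ (k + 1) * ((pp (l.map fun a => c * a)).coeff k +
        c * a * (pp (l.map fun a => c * a)).coeff (k + 1)) =
        c * (c ^ k * (pp (l.map fun a => c * a)).coeff k) +
        c * a * (c ^ (k + 1) * (pp (l.map fun a => c * a)).coeff (k + 1)) := by ring
    rw [e, h, h']; ring

/-- the zeros -/
noncomputable def z (j : Fin zl.length) : ℝ := ((zl[j.1] : ℤ) : ℝ) / 10000

theorem Q_eq : zeroPoly z = (zl.map fun a => X - C (((a : ℤ) : ℝ) / 10000)).prod := by
  unfold zeroPoly z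
  exact Fin.prod_univ_fun_getElem zl (fun a => X - C (((a : ℤ) : ℝ) / 10000))

/-- the list of differences `x - z_j` -/
noncomputable def dl (x : ℝ) : List ℝ := zl.map fun a => x - ((a : ℤ) : ℝ) / 10000

theorem taylor_Q (x : ℝ) : taylor x (zeroPoly z) = pp (dl x) := by
  rw [Q_eq, pp, dl, ← taylorAlgHom_apply, map_list_prod, List.map_map, List.map_map]
  congr 1
  apply List.map_congr_left
  intro a _
  simp [taylorAlgHom_apply, taylor_X, taylor_C]
  ring

theorem deriv_Q (k : ℕ) (x : ℝ) : (derivative^[k] (zeroPoly z)).eval x =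
    (k.factorial : ℝ) * (pp (dl x)).coeff k := by
  rw [← taylor_Q, taylor_coeff, ← factorial_smul_hasseDeriv]
  simp

theorem zip_cover : ∀ (l : List ℤ) (a : ℤ) (t : ℝ), (a : ℝ) ≤ t → (∃ b ∈ l, t ≤ (b : ℝ)) →
    ∃ p ∈ (a :: l).zip l, ((p.1 : ℤ) : ℝ) ≤ t ∧ t ≤ ((p.2 : ℤ) : ℝ)
  | [], a, t, _, h => by simp at h
  | b :: l, a, t, h1, h => by
    rcases le_or_gt t (b : ℝ) with hb | hb
    · exact ⟨(a, b), by simp, h1, hb⟩
    · obtain ⟨b', hb', ht⟩ := h
      rcases List.mem_cons.1 hb' with rfl | hm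
      · exact absurd ht (not_le.2 hb)
      · obtain ⟨p, hp, hp1, hp2⟩ := zip_cover l b t hb.le ⟨b', hm, ht⟩
        exact ⟨p, by rw [List.zip_cons_cons]; exact List.mem_cons_of_mem _ hp, hp1, hp2⟩

theorem br_eq : br = -10000 :: br.tail := by decide +kernel

theorem mem_br : (10000 : ℤ) ∈ br.tail := by decide +kernel

theorem cover (t : ℝ) (h1 : -10000 ≤ t) (h2 : t ≤ 10000) :
    ∃ p ∈ br.zip br.tail, ((p.1 : ℤ) : ℝ) ≤ t ∧ t ≤ ((p.2 : ℤ) : ℝ) := by
  have h := zip_cover br.tail (-10000) t (by push_cast; exact h1) ⟨10000, mem_br, by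
    push_cast; exact h2⟩
  rwa [← br_eq] at h

theorem M_spec {lo hi a : ℤ} {t : ℝ} (h1 : (lo : ℝ) ≤ t) (h2 : t ≤ hi) :
    |t - a| ≤ ((M lo hi a : ℕ) : ℝ) := by
  have h : |t - a| ≤ max |(lo : ℝ) - a| |(hi : ℝ) - a| :=
    abs_le_max_abs_abs (by linarith) (by linarith)
  refine h.trans (le_of_eq ?_)
  unfold M
  rw [Nat.cast_max, Nat.cast_natAbs, Nat.cast_natAbs]
  push_cast
  rfl

theorem forall₂_map {α β γ : Type*} (R : β → γ → Prop) (f : α → β) (g : α → γ) :
    ∀ (l : List α), (∀ a ∈ l, R (f a) (g a)) → List.Forall₂ R (l.map f) (l.map g)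
  | [], _ => by simp
  | a :: l, h => by
    simp only [List.map_cons]
    exact List.Forall₂.cons (h a (by simp)) (forall₂_map R f g l fun b hb => h b (by simp [hb]))

theorem scaled (x : ℝ) : (dl x).map (fun a => 10000 * a) = zl.map fun a => 10000 * x - (a : ℤ) := by
  unfold dl
  rw [List.map_map]
  apply List.map_congr_left
  intro a _
  simp only [Function.comp]
  ring

theorem zl_le : ∀ a ∈ zl, a ≤ 10000 := by decide +kernel

theorem cond : ConditionA zl.length (zeroPoly z) := by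
  intro k _ x hx
  rw [deriv_Q, deriv_Q, abs_mul, abs_of_nonneg (Nat.cast_nonneg _ : (0 : ℝ) ≤ (k.factorial : ℝ))]
  refine mul_le_mul_of_nonneg_left ?_ (Nat.cast_nonneg _)
  obtain ⟨p, hp, hp1, hp2⟩ := cover (10000 * x) (by linarith [hx.1]) (by linarith [hx.2])
  have hc := List.all_eq_true.1 chk p hp
  have hle := leq_spec _ _ hc k
  have h1 : |(pp (zl.map fun a => 10000 * x - ((a : ℤ) : ℝ))).coeff k| ≤
      (((coefs (Ml p)).getD k 0 : ℕ) : ℝ) :=
    pp_bound (forall₂_map _ _ _ zl fun a _ => M_spec hp1 hp2) k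
  have h2 : (pp (zl.map fun a => 10000 * (1 : ℝ) - ((a : ℤ) : ℝ))).coeff k =
      (((coefs Wl).getD k 0 : ℕ) : ℝ) := by
    refine pp_exact (forall₂_map _ _ _ zl fun a ha => ?_) k
    have h0 := zl_le a ha
    have h3 : (((10000 - a).natAbs : ℕ) : ℤ) = 10000 - a := Int.natAbs_of_nonneg (by linarith)
    have h4 : ((((10000 - a).natAbs : ℕ) : ℤ) : ℝ) = ((10000 - a : ℤ) : ℝ) := congrArg _ h3
    rw [Int.cast_natCast] at h4
    rw [h4]
    push_cast; ring
  have h3 : (((coefs (Ml p)).getD k 0 : ℕ) : ℝ) ≤ (((coefs Wl).getD k 0 : ℕ) : ℝ) := by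
    exact_mod_cast hle
  have s1 := pp_scale 10000 (dl x) k
  have s2 := pp_scale 10000 (dl 1) k
  rw [scaled] at s1 s2
  have hlen : ∀ y : ℝ, (dl y).length = zl.length := fun y => by simp [dl]
  rw [hlen] at s1 s2
  have hpos : (0 : ℝ) < 10000 ^ zl.length := by positivity
  have hpk : (0 : ℝ) < 10000 ^ k := by positivity
  have key : 10000 ^ zl.length * |(pp (dl x)).coeff k| ≤ 10000 ^ zl.length * (pp (dl 1)).coeff k := by
    rw [← s2]
    have e : 10000 ^ zl.length * |(pp (dl x)).coeff k| =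
        10000 ^ k * |(pp (zl.map fun a => 10000 * x - ((a : ℤ) : ℝ))).coeff k| := by
      have := congrArg abs s1
      rw [abs_mul, abs_mul, abs_of_pos hpos, abs_of_pos hpk] at this
      exact this.symm
    rw [e]
    refine mul_le_mul_of_nonneg_left ?_ hpk.le
    rw [h2]
    exact h1.trans h3
  exact le_of_mul_le_mul_left key hpos

theorem strictMono_z : StrictMono z := by
  have h : ∀ i j : Fin zl.length, i < j → zl[i.1] < zl[j.1] := by decide +kernel
  intro i j hij
  have := h i j hij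
  unfold z
  have h2 : ((zl[i.1] : ℤ) : ℝ) < ((zl[j.1] : ℤ) : ℝ) := by exact_mod_cast this
  linarith

theorem range_z (j : Fin zl.length) : z j ∈ Set.Icc (-1 : ℝ) 1 := by
  have h : ∀ j : Fin zl.length, -10000 ≤ zl[j.1] ∧ zl[j.1] ≤ 10000 := by decide +kernel
  obtain ⟨h1, h2⟩ := h j
  have h1' : (-10000 : ℝ) ≤ ((zl[j.1] : ℤ) : ℝ) := by exact_mod_cast h1
  have h2' : ((zl[j.1] : ℤ) : ℝ) ≤ 10000 := by exact_mod_cast h2
  unfold z
  constructor <;> linarith

theorem symm_z (j : Fin zl.length) : z j = -z (Fin.rev j) := by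
  have h : ∀ j : Fin zl.length, zl[j.1] = -zl[(Fin.rev j).1] := by decide +kernel
  have h1 : ((zl[j.1] : ℤ) : ℝ) = -((zl[(Fin.rev j).1] : ℤ) : ℝ) := by exact_mod_cast h j
  unfold z
  rw [h1]; ring

theorem normSq_aeval (w : ℂ) : Complex.normSq (aeval w (zeroPoly z)) =
    (zl.map fun a => Complex.normSq (w - ((a : ℤ) : ℂ) / 10000)).prod := by
  rw [Q_eq, map_list_prod, map_list_prod, List.map_map, List.map_map]
  congr 1
  apply List.map_congr_left
  intro a _
  simp

theorem scale_prod (f : ℤ → ℝ) (c : ℝ) : ∀ l : List ℤ, c ^ l.length * (l.map f).prod =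
    (l.map fun a => c * f a).prod
  | [] => by simp
  | a :: l => by
    simp only [List.length_cons, List.map_cons, List.prod_cons]
    rw [← scale_prod f c l]; ring

theorem chk2 : (zl.map fun a => 475 ^ 2 + (10000 - a) ^ 2).prod <
    (zl.map fun a => 475 ^ 2 + a ^ 2).prod := by
  decide +kernel

theorem fails : ¬PropertyD (zeroPoly z) := by
  intro hD
  have h := hD 0 (by constructor <;> norm_num) (475 / 10000)
  have h2 : Complex.normSq (aeval (((0 : ℝ) : ℂ) + ((475 / 10000 : ℝ) : ℂ) * Complex.I) (zeroPoly z))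
      ≤ Complex.normSq (aeval (1 + ((475 / 10000 : ℝ) : ℂ) * Complex.I) (zeroPoly z)) := by
    rw [Complex.normSq_eq_norm_sq, Complex.normSq_eq_norm_sq]
    exact pow_le_pow_left₀ (norm_nonneg _) h 2
  rw [normSq_aeval, normSq_aeval] at h2
  have hpos : (0 : ℝ) < (10000 ^ 2) ^ zl.length := by positivity
  have h3 := mul_le_mul_of_nonneg_left h2 hpos.le
  rw [scale_prod, scale_prod] at h3
  have e1 : (zl.map fun a => (10000 : ℝ) ^ 2 * Complex.normSq
      (((0 : ℝ) : ℂ) + ((475 / 10000 : ℝ) : ℂ) * Complex.I - ((a : ℤ) : ℂ) / 10000)) =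
      zl.map fun a => (((475 ^ 2 + a ^ 2 : ℤ)) : ℝ) := by
    apply List.map_congr_left
    intro a _
    rw [Complex.normSq_apply]
    simp
    ring
  have e2 : (zl.map fun a => (10000 : ℝ) ^ 2 * Complex.normSq
      (1 + ((475 / 10000 : ℝ) : ℂ) * Complex.I - ((a : ℤ) : ℂ) / 10000)) =
      zl.map fun a => (((475 ^ 2 + (10000 - a) ^ 2 : ℤ)) : ℝ) := by
    apply List.map_congr_left
    intro a _
    rw [Complex.normSq_apply]
    simp
    ring
  rw [e1, e2] at h3
  have c := chk2
  have c1 : ((zl.map fun a => (475 ^ 2 + (10000 - a) ^ 2 : ℤ)).prod : ℝ) <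
      ((zl.map fun a => (475 ^ 2 + a ^ 2 : ℤ)).prod : ℝ) := by exact_mod_cast c
  rw [Int.cast_list_prod, Int.cast_list_prod, List.map_map, List.map_map] at c1
  exact absurd h3 (not_le.2 c1)

/-- Condition (a) does not imply property (D). -/
theorem result : ∃ n : ℕ, 1 ≤ n ∧ ∃ x : Fin n → ℝ, SymmetricZeros x ∧
    ConditionA n (zeroPoly x) ∧ ¬PropertyD (zeroPoly x) :=
  ⟨zl.length, by decide, z, ⟨strictMono_z, range_z, symm_z⟩, cond, fails⟩

end Pool.Agent.Results.MP_1c7d4c_an.ConditionAFails
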